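import Mathlib

/-!
Diophantine graphs: the chromatic number is controlled by the multiples of twelve.
-/

namespace Pool.Agent.Results.MP_d91fe8_nt.MultiplesOfTwelve

/-- the Diophantine graph `D(V)`: vertex set `V`, distinct `a, b` adjacent iff `a * b + 1` is a
perfect square -/
def D (V : Finset ℕ) : SimpleGraph V where
  Adj a b := a ≠ b ∧ IsSquare ((a : ℕ) * (b : ℕ) + 1)
  symm := ⟨fun a b h => ⟨h.1.symm, by rw [mul_comm]; exact h.2⟩⟩
  loopless := ⟨fun a h => h.1 rfl⟩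

theorem sq_mod (m : ℕ) (h : IsSquare m) : (m % 3 = 0 ∨ m % 3 = 1) ∧
    (m % 8 = 0 ∨ m % 8 = 1 ∨ m % 8 = 4) := by
  obtain ⟨r, rfl⟩ := h
  constructor
  · have : r % 3 = 0 ∨ r % 3 = 1 ∨ r % 3 = 2 := by omega
    rcases this with h | h | h <;> simp [Nat.mul_mod, h]
  · have : r % 8 = 0 ∨ r % 8 = 1 ∨ r % 8 = 2 ∨ r % 8 = 3 ∨ r % 8 = 4 ∨ r % 8 = 5 ∨ r % 8 = 6 ∨
      r % 8 = 7 := by omega
    rcases this with h | h | h | h | h | h | h | h <;> simp [Nat.mul_mod, h]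

/-- class of a non-multiple of twelve -/
def cls (v : ℕ) : Fin 4 :=
  if v % 3 = 1 then 0 else if v % 3 = 2 then 1 else if v % 4 = 3 then 3 else 2

theorem cls_mod (v : ℕ) : cls (v % 24) = cls v := by
  unfold cls
  have h3 : v % 24 % 3 = v % 3 := Nat.mod_mod_of_dvd v (by norm_num)
  have h4 : v % 24 % 4 = v % 4 := Nat.mod_mod_of_dvd v (by norm_num)
  rw [h3, h4]

theorem table : ∀ a : Fin 24, ∀ b : Fin 24, (a : ℕ) % 12 ≠ 0 → (b : ℕ) % 12 ≠ 0 →
    cls a = cls b → (((a : ℕ) * b + 1) % 3 = 2 ∨ ((a : ℕ) * b + 1) % 8 = 2 ∨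
      ((a : ℕ) * b + 1) % 8 = 3 ∨ ((a : ℕ) * b + 1) % 8 = 5 ∨
      ((a : ℕ) * b + 1) % 8 = 6 ∨ ((a : ℕ) * b + 1) % 8 = 7) := by
  decide

theorem cls_ne (v w : ℕ) (hv : ¬ 12 ∣ v) (hw : ¬ 12 ∣ w) (h : IsSquare (v * w + 1)) :
    cls v ≠ cls w := by
  intro he
  obtain ⟨h3, h8⟩ := sq_mod _ h
  have ha : v % 24 < 24 := Nat.mod_lt _ (by norm_num)
  have hb : w % 24 < 24 := Nat.mod_lt _ (by norm_num)
  have key := table ⟨v % 24, ha⟩ ⟨w % 24, hb⟩ (by simp only; omega) (by simp only; omega)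
    (by simp only [cls_mod, he])
  simp only at key
  have e3 : (v % 24 * (w % 24) + 1) % 3 = (v * w + 1) % 3 := by
    rw [Nat.add_mod, Nat.mul_mod, Nat.mod_mod_of_dvd v (by norm_num),
      Nat.mod_mod_of_dvd w (by norm_num), ← Nat.mul_mod, ← Nat.add_mod]
  have e8 : (v % 24 * (w % 24) + 1) % 8 = (v * w + 1) % 8 := by
    rw [Nat.add_mod, Nat.mul_mod, Nat.mod_mod_of_dvd v (by norm_num),
      Nat.mod_mod_of_dvd w (by norm_num), ← Nat.mul_mod, ← Nat.add_mod]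
  rw [e3, e8] at key
  omega

/-- If the multiples of `12` in `V` induce a `k`-colourable graph, then `D(V)` is
`(k + 4)`-colourable. -/
theorem result (V : Finset ℕ) (k : ℕ) (h : (D (V.filter (fun v => 12 ∣ v))).Colorable k) :
    (D V).Colorable (k + 4) := by
  classical
  obtain ⟨C⟩ := h
  have e : (D V).Coloring (Fin k ⊕ Fin 4) := by
    refine SimpleGraph.Coloring.mk (fun v => if hv : 12 ∣ (v : ℕ) then
      Sum.inl (C ⟨v, Finset.mem_filter.mpr ⟨v.2, hv⟩⟩) else Sum.inr (cls v)) ?_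
    intro v w hvw
    by_cases hv : 12 ∣ (v : ℕ) <;> by_cases hw : 12 ∣ (w : ℕ)
    · simp only [hv, hw, dif_pos]
      intro heq
      have h1 := Sum.inl.inj heq
      refine C.valid (v := ⟨v, Finset.mem_filter.mpr ⟨v.2, hv⟩⟩)
        (w := ⟨w, Finset.mem_filter.mpr ⟨w.2, hw⟩⟩) ?_ h1
      refine ⟨?_, hvw.2⟩
      intro h2
      apply hvw.1
      have h3 := congrArg Subtype.val h2
      exact Subtype.ext h3
    · simp [hv, hw]
    · simp [hv, hw]
    · simp only [hv, hw, dif_neg, not_false_eq_true]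
      intro heq
      exact cls_ne v w hv hw hvw.2 (Sum.inr.inj heq)
  have e2 := e.colorable
  simpa using e2

end Pool.Agent.Results.MP_d91fe8_nt.MultiplesOfTwelve
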